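import Pool.Agent.W740.WC.Tr

set_option autoImplicit false

open MeasureTheory

namespace Pool.Agent.Results.MP_651bcb_an.FreeWidth

open Pool.Agent.W740.WC

/-- For every countable nonamenable group the width of the class of free probability measure
preserving actions on a standard nonatomic probability space, preordered by weak containment, is
the cardinality of the continuum, and there is an antichain of that cardinality. -/
theorem result (Γ : Type) [Group Γ] [Countable Γ] (hΓ : ¬ IsAmenable Γ)
    (X : Type) [MeasurableSpace X] [StandardBorelSpace X] (μ : Measure X)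
    [IsProbabilityMeasure μ] [NullSingletonClass μ] :
    freeWidth Γ X μ = Cardinal.continuum ∧
      ∃ S : Set (PmpAction Γ X μ), IsFreeAntichain S ∧ Cardinal.mk S = Cardinal.continuum := by
  obtain ⟨S, hS, hc⟩ := exists_antichain (Γ := Γ) μ hΓ
  have hle : ∀ T : {T : Set (PmpAction Γ X μ) // IsFreeAntichain T},
      Cardinal.mk T.1 ≤ Cardinal.continuum := fun T => (Cardinal.mk_set_le T.1).trans (mk_action μ)
  refine ⟨le_antisymm (ciSup_le' hle) ?_, S, hS, hc⟩
  rw [← hc]
  exact le_ciSup (f := fun T : {T : Set (PmpAction Γ X μ) // IsFreeAntichain T} =>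
    Cardinal.mk T.1) ⟨Cardinal.continuum, by rintro _ ⟨T, rfl⟩; exact hle T⟩ ⟨S, hS⟩

end Pool.Agent.Results.MP_651bcb_an.FreeWidth
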